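import Pool.Agent.K1H53.KD.Plan2

/-!
Centring at the mean; fluctuations from confinement in dimension one.
-/

open MeasureTheory ProbabilityTheory Set Filter TH967.DP
open scoped Topology

set_option linter.unusedSectionVars false

namespace Pool.Agent.K1H54.KD

open Pool.Agent.K1H38.DP Pool.Agent.K1H53.KD

variable {d : ℕ} {Ω : Type*} [MeasurableSpace Ω] {P : Measure Ω} [IsProbabilityMeasure P]
variable {ω : ℕ → (Fin d → ℤ) → Ω → ℝ}

/-- the free energy is measurable and integrable, with variance at most linear -/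
lemma momentsd [NeZero d] (he : IsEnv P ω) (hexp : HasExp P ω) (β : ℝ) :
    ∃ K : ℝ, 0 < K ∧ ∀ (h : Fin d → ℝ) (n : ℕ), 1 ≤ n →
      Measurable (fun a => Real.log (Zd β h (fld ω a) n)) ∧
      Integrable (fun a => Real.log (Zd β h (fld ω a) n)) P ∧
      Integrable (fun a => (Real.log (Zd β h (fld ω a) n) - Lm P ω β h n) ^ 2) P ∧
      ∫ a, (Real.log (Zd β h (fld ω a) n) - Lm P ω β h n) ^ 2 ∂P ≤ K * n := by
  obtain ⟨K, hK, hV⟩ := Vr_linear he hexp β
  exact ⟨K, hK, fun h n hn => ⟨Real.measurable_log.comp ((measurable_Zd β h n).comp (measurable_fld he)),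
    integrable_log_Zd he hexp β h n, integrable_sq he hexp β h hn, hV h n hn⟩⟩

lemma ev_lt {a b C : ℝ} (hab : a < b) (hb : 0 < b) :
    ∀ᶠ n : ℕ in atTop, C * (n : ℝ) ^ a + 2 ≤ (n : ℝ) ^ b := by
  have h1 : Tendsto (fun s : ℕ => (s : ℝ) ^ (-(b - a))) atTop (nhds 0) :=
    (tendsto_rpow_neg_atTop (by linarith)).comp tendsto_natCast_atTop_atTop
  have h2 : Tendsto (fun s : ℕ => (s : ℝ) ^ (-b)) atTop (nhds 0) :=
    (tendsto_rpow_neg_atTop hb).comp tendsto_natCast_atTop_atTop
  have h3 : Tendsto (fun s : ℕ => C * (s : ℝ) ^ (-(b - a)) + 2 * (s : ℝ) ^ (-b)) atTop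
      (nhds (C * 0 + 2 * 0)) := (h1.const_mul C).add (h2.const_mul 2)
  rw [mul_zero, mul_zero, add_zero] at h3
  filter_upwards [h3.eventually_le_const (show (0 : ℝ) < 1 by norm_num),
    eventually_ge_atTop 1] with s hs hs1
  have hsR : (0 : ℝ) < s := by exact_mod_cast hs1
  have e1 : (s : ℝ) ^ a = (s : ℝ) ^ (-(b - a)) * (s : ℝ) ^ b := by
    rw [← Real.rpow_add hsR]; congr 1; ring
  have e2 : (1 : ℝ) = (s : ℝ) ^ (-b) * (s : ℝ) ^ b := by
    rw [← Real.rpow_add hsR]; simp
  have e3 : C * (s : ℝ) ^ a + 2 = (C * (s : ℝ) ^ (-(b - a)) + 2 * (s : ℝ) ^ (-b)) * (s : ℝ) ^ b := by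
    rw [e1]
    linear_combination 2 * e2
  rw [e3]
  calc (C * (s : ℝ) ^ (-(b - a)) + 2 * (s : ℝ) ^ (-b)) * (s : ℝ) ^ b ≤ 1 * (s : ℝ) ^ b :=
        mul_le_mul_of_nonneg_right hs (by positivity)
    _ = _ := one_mul _

theorem t_center [NeZero d] (he : IsEnv P ω) (hexp : HasExp P ω) (β : ℝ) : S_center P ω β := by
  intro h c' hc' hex c'' hcc
  obtain ⟨s, C, hs, H⟩ := hex
  obtain ⟨K, hK, hmom⟩ := momentsd he hexp β
  have q0 := ((poly_exp 2 hs).mul_const (|C| * (K + 1)))
  rw [zero_mul] at q0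
  have q1 := q0.eventually_lt_const (show (0 : ℝ) < 1 / 2 by norm_num)
  have q2 : ∀ᶠ n : ℕ in atTop, 3 * (n : ℝ) ^ c' + 2 ≤ (n : ℝ) ^ c'' :=
    ev_lt hcc (by linarith)
  obtain ⟨N₀, hN₀⟩ := eventually_atTop.1 (q1.and q2)
  refine ⟨by linarith, s, |C| + Real.exp ((N₀ : ℝ) ^ s), hs, fun n hn => ?_⟩
  have hnR : (1 : ℝ) ≤ n := by exact_mod_cast hn
  have hn0 : (0 : ℝ) < n := by linarith
  rcases lt_or_ge n N₀ with hlt | hge
  · have h1 : (n : ℝ) ^ s ≤ (N₀ : ℝ) ^ s :=
      Real.rpow_le_rpow hn0.le (by exact_mod_cast hlt.le) hs.le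
    have h2 : 1 ≤ Real.exp ((N₀ : ℝ) ^ s) * Real.exp (-(n : ℝ) ^ s) := by
      rw [← Real.exp_add]
      apply Real.one_le_exp
      linarith
    have h3 : 0 ≤ |C| * Real.exp (-(n : ℝ) ^ s) := by positivity
    refine le_trans measureReal_le_one ?_
    rw [add_mul]
    linarith
  · obtain ⟨r1, r2⟩ := hN₀ n hge
    obtain ⟨m, hm⟩ := H n hn
    obtain ⟨mX, iX, iY2, hV⟩ := hmom h n hn
    set X : Ω → ℝ := fun a => Real.log (Zd β h (fld ω a) n) with hX
    set E := Lm P ω β h n with hE
    have hE' : E = ∫ a, X a ∂P := rfl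
    set A : Set Ω := {x | (n : ℝ) ^ c' < |X x - m|} with hA
    have mA : MeasurableSet A := measurableSet_lt measurable_const (mX.sub_const m).abs
    have pA : P.real A ≤ |C| * Real.exp (-(n : ℝ) ^ s) :=
      hm.trans (mul_le_mul_of_nonneg_right (le_abs_self _) (Real.exp_pos _).le)
    -- the probability of `A` is small
    have hsm : P.real A * (K + 1) * n ≤ 1 / 2 := by
      have h6 : (n : ℝ) ≤ (2 * (n : ℝ) + 1) ^ 2 := by nlinarith
      calc P.real A * (K + 1) * n ≤ (|C| * Real.exp (-(n : ℝ) ^ s)) * (K + 1) *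
            (2 * (n : ℝ) + 1) ^ 2 := by
            apply mul_le_mul _ h6 hn0.le (by positivity)
            exact mul_le_mul_of_nonneg_right pA (by linarith)
        _ = (2 * (n : ℝ) + 1) ^ 2 * Real.exp (-(n : ℝ) ^ s) * (|C| * (K + 1)) := by ring
        _ ≤ 1 / 2 := r1.le
    have pA0 : 0 ≤ P.real A := measureReal_nonneg
    have hsm1 : P.real A ≤ 1 / 2 := by
      have : P.real A * 1 ≤ P.real A * ((K + 1) * n) :=
        mul_le_mul_of_nonneg_left (by nlinarith) pA0
      nlinarith
    have hsm2 : P.real A * (K * n) ≤ 1 / 2 := by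
      have : P.real A * (K * n) ≤ P.real A * ((K + 1) * n) :=
        mul_le_mul_of_nonneg_left (by nlinarith) pA0
      nlinarith
    -- the centring is near the mean
    have hKn : 0 < K * n := by positivity
    have hpt : ∀ a, |X a - m| ≤ (n : ℝ) ^ c' + (1 / (2 * (K * n)) * (X a - E) ^ 2 +
        A.indicator (fun _ => K * n / 2 + |E - m|) a) := by
      intro a
      have h0 : 0 ≤ 1 / (2 * (K * n)) * (X a - E) ^ 2 := by positivity
      by_cases ha : a ∈ A
      · rw [Set.indicator_of_mem ha]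
        have h1 : |X a - m| ≤ |X a - E| + |E - m| := abs_sub_le _ _ _
        have h2 : |X a - E| ≤ 1 / (2 * (K * n)) * (X a - E) ^ 2 + K * n / 2 := by
          rw [← sq_abs (X a - E)]
          have e : 1 / (2 * (K * n)) * |X a - E| ^ 2 + K * n / 2 - |X a - E| =
              (|X a - E| - K * n) ^ 2 / (2 * (K * n)) := by
            field_simp; ring
          have : 0 ≤ (|X a - E| - K * n) ^ 2 / (2 * (K * n)) := by positivity
          linarith
        have := Real.rpow_nonneg hn0.le c'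
        linarith
      · rw [Set.indicator_of_notMem ha]
        have : |X a - m| ≤ (n : ℝ) ^ c' := by
          rw [hA] at ha
          simpa using ha
        linarith
    have iI : Integrable (A.indicator (fun _ => K * n / 2 + |E - m|)) P :=
      (integrable_const _).indicator mA
    have iR : Integrable (fun a => 1 / (2 * (K * n)) * (X a - E) ^ 2 +
        A.indicator (fun _ => K * n / 2 + |E - m|) a) P := (iY2.const_mul _).add iI
    have iXm : Integrable (fun a => X a - m) P := iX.sub (integrable_const m)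
    have hEm : |E - m| ≤ (n : ℝ) ^ c' + (1 / 2 + (1 / 4 + |E - m| / 2)) := by
      have e1 : E - m = ∫ a, (X a - m) ∂P := by
        rw [integral_sub iX (integrable_const m), ← hE']
        simp
      calc |E - m| = |∫ a, (X a - m) ∂P| := by rw [← e1]
        _ ≤ ∫ a, |X a - m| ∂P := abs_integral_le_integral_abs
        _ ≤ ∫ a, ((n : ℝ) ^ c' + (1 / (2 * (K * n)) * (X a - E) ^ 2 +
            A.indicator (fun _ => K * n / 2 + |E - m|) a)) ∂P :=
            integral_mono iXm.abs ((integrable_const _).add iR) hpt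
        _ = (n : ℝ) ^ c' + (1 / (2 * (K * n)) * ∫ a, (X a - E) ^ 2 ∂P +
            P.real A * (K * n / 2 + |E - m|)) := by
            rw [integral_add (integrable_const _) iR, integral_add (iY2.const_mul _) iI,
              integral_const_mul, integral_indicator_const _ mA, integral_const, probReal_univ,
              one_smul, smul_eq_mul]
        _ ≤ _ := by
            have h1 : 1 / (2 * (K * n)) * ∫ a, (X a - E) ^ 2 ∂P ≤ 1 / 2 := by
              calc 1 / (2 * (K * n)) * ∫ a, (X a - E) ^ 2 ∂P ≤ 1 / (2 * (K * n)) * (K * n) :=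
                    mul_le_mul_of_nonneg_left hV (by positivity)
                _ = 1 / 2 := by field_simp
            have h2 : P.real A * (K * n / 2 + |E - m|) ≤ 1 / 4 + |E - m| / 2 := by
              have : P.real A * |E - m| ≤ 1 / 2 * |E - m| :=
                mul_le_mul_of_nonneg_right hsm1 (abs_nonneg _)
              nlinarith
            linarith
    have hEm2 : |E - m| ≤ 2 * (n : ℝ) ^ c' + 2 := by linarith
    have hsub : {x | (n : ℝ) ^ c'' < |Real.log (Zn β h (fun i y => ω i y x) n) -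
        ∫ x', Real.log (Zn β h (fun i y => ω i y x') n) ∂P|} ⊆ A := by
      intro x hx
      rw [dev_eq he hexp] at hx
      have hx' : (n : ℝ) ^ c'' < |X x - E| := hx
      rw [hA]
      simp only [mem_ofPred_eq]
      have h1 : |X x - E| ≤ |X x - m| + |m - E| := abs_sub_le _ _ _
      rw [abs_sub_comm m E] at h1
      linarith
    refine (measureReal_mono hsub (measure_ne_top _ _)).trans (pA.trans ?_)
    apply mul_le_mul_of_nonneg_right _ (Real.exp_pos _).le
    have := Real.exp_pos ((N₀ : ℝ) ^ s)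
    linarith


lemma measurable_frProb (he : IsEnv P ω) (β : ℝ) (h : Fin d → ℝ) (n : ℕ) (A : Set (Fin n → Step d)) :
    Measurable fun x => frProb β h (fun i y => ω i y x) A := by
  unfold frProb
  have h1 : Measurable fun x => Zd β h (fun i y => ω i y x) n :=
    (measurable_Zd β h n).comp (measurable_fld he)
  refine Measurable.div ?_ h1
  apply Finset.measurable_sum
  intro w _
  by_cases hw : w ∈ A
  · simp only [Set.indicator_of_mem hw]
    unfold wgt energy
    apply Real.measurable_exp.comp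
    apply Measurable.const_add
    apply Measurable.const_mul
    apply Finset.measurable_sum
    intro i _
    exact he.meas _ _
  · simp only [Set.indicator_of_notMem hw]
    exact measurable_const

lemma frProb_nonneg [NeZero d] (β : ℝ) (h : Fin d → ℝ) (η : ℕ → (Fin d → ℤ) → ℝ) (n : ℕ)
    (A : Set (Fin n → Step d)) : 0 ≤ frProb β h η A := by
  unfold frProb
  apply div_nonneg _ (Zd_pos β h η n).le
  exact Finset.sum_nonneg fun w _ => Set.indicator_nonneg (fun w _ => (wgt_pos _ _ _ w).le) w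

lemma frProb_le_one [NeZero d] (β : ℝ) (h : Fin d → ℝ) (η : ℕ → (Fin d → ℤ) → ℝ) (n : ℕ)
    (A : Set (Fin n → Step d)) : frProb β h η A ≤ 1 := by
  have h1 := frProb_compl β h η A
  have h2 := frProb_nonneg β h η n Aᶜ
  linarith

theorem t_anti (he : IsEnv P ω) (hexp : HasExp P ω) (β : ℝ) : S_anti P ω β := by
  intro hd hβ hnc h v c a hc ha ha1
  have hnz : NeZero d := ⟨by omega⟩
  by_contra hcon
  rw [not_le] at hcon
  obtain ⟨hc0, s, C, hs, H⟩ := hc
  obtain ⟨ha0, s', C', hs', H'⟩ := ha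
  have hκ : 0 < s' / 2 := by positivity
  set g : ℕ → Ω → ℝ := fun N x => 1 - frProb β h (fun i y => ω i y x) (tube N v ((N : ℝ) ^ a)) with hg
  have g0 : ∀ N x, 0 ≤ g N x := fun N x => sub_nonneg.2 (frProb_le_one β h _ N _)
  have g1 : ∀ N x, g N x ≤ 1 := fun N x => by
    have := frProb_nonneg β h (fun i y => ω i y x) N (tube N v ((N : ℝ) ^ a))
    simp only [hg]
    linarith
  have mg : ∀ N, Measurable (g N) := fun N => (measurable_frProb he β h N _).const_sub 1
  have ig : ∀ N, Integrable (g N) P := fun N =>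
    Integrable.mono' (integrable_const (1 : ℝ)) (mg N).aestronglyMeasurable
      (Eventually.of_forall fun x => by rw [Real.norm_of_nonneg (g0 N x)]; exact g1 N x)
  set B : ℕ → Set Ω := fun N => {x | Real.exp (-(N : ℝ) ^ (s' / 2)) < g N x} with hB
  have hBsum : Summable (fun N => P.real (B N)) := by
    have h0 := (summable_poly_exp 0 hκ).mul_left |C'|
    refine Summable.of_norm_bounded_eventually_nat h0 ?_
    have e1 : ∀ᶠ N : ℕ in atTop, 2 ≤ (N : ℝ) ^ (s' / 2) :=
      ((tendsto_rpow_atTop hκ).comp tendsto_natCast_atTop_atTop).eventually_ge_atTop 2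
    filter_upwards [e1, eventually_ge_atTop 1] with N hN hN1
    have hNR : (0 : ℝ) < N := by exact_mod_cast hN1
    rw [Real.norm_of_nonneg measureReal_nonneg, pow_zero, one_mul]
    have m1 := mul_meas_ge_le_integral_of_nonneg (Eventually.of_forall (g0 N)) (ig N)
      (Real.exp (-(N : ℝ) ^ (s' / 2)))
    have m2 : P.real (B N) ≤ P.real {x | Real.exp (-(N : ℝ) ^ (s' / 2)) ≤ g N x} :=
      measureReal_mono (fun x hx => by
        have h1 : Real.exp (-(N : ℝ) ^ (s' / 2)) < g N x := hx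
        exact h1.le) (measure_ne_top _ _)
    have m3 : ∫ x, g N x ∂P ≤ |C'| * Real.exp (-(N : ℝ) ^ s') :=
      (H' N hN1).trans (mul_le_mul_of_nonneg_right (le_abs_self _) (Real.exp_pos _).le)
    have e2 : (N : ℝ) ^ s' = (N : ℝ) ^ (s' / 2) * (N : ℝ) ^ (s' / 2) := by
      rw [← Real.rpow_add hNR]; congr 1; ring
    have e3 : Real.exp (-(N : ℝ) ^ s') ≤ Real.exp (-(N : ℝ) ^ (s' / 2)) * Real.exp (-(N : ℝ) ^ (s' / 2)) := by
      rw [← Real.exp_add]
      apply Real.exp_le_exp.2
      rw [e2]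
      nlinarith
    have hexp0 := Real.exp_pos (-(N : ℝ) ^ (s' / 2))
    have m4 : Real.exp (-(N : ℝ) ^ (s' / 2)) * P.real (B N) ≤
        Real.exp (-(N : ℝ) ^ (s' / 2)) * (|C'| * Real.exp (-(N : ℝ) ^ (s' / 2))) := by
      calc _ ≤ Real.exp (-(N : ℝ) ^ (s' / 2)) * P.real {x | Real.exp (-(N : ℝ) ^ (s' / 2)) ≤ g N x} :=
            mul_le_mul_of_nonneg_left m2 hexp0.le
        _ ≤ ∫ x, g N x ∂P := m1
        _ ≤ |C'| * Real.exp (-(N : ℝ) ^ s') := m3
        _ ≤ |C'| * (Real.exp (-(N : ℝ) ^ (s' / 2)) * Real.exp (-(N : ℝ) ^ (s' / 2))) :=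
            mul_le_mul_of_nonneg_left e3 (abs_nonneg _)
        _ = _ := by ring
    exact le_of_mul_le_mul_left m4 hexp0
  have H2 := anti_of_tube he hexp hd hnc hβ (h := h) (v := v) (a := a) hκ hBsum
    (Eventually.of_forall fun N x hx => by
      have : ¬ Real.exp (-(N : ℝ) ^ (s' / 2)) < g N x := hx
      rw [not_lt] at this
      simp only [hg] at this
      linarith) (b := c) ha0.le hc0.le hcon (ε := 1 / 3) (by norm_num)
  have q0 := (poly_exp 0 hs).mul_const |C|
  rw [zero_mul] at q0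
  have q1 := q0.eventually_lt_const (show (0 : ℝ) < 1 / 3 by norm_num)
  obtain ⟨N, hN1, hN2, hN3⟩ := ((eventually_ge_atTop 1).and (q1.and H2)).exists
  set E := ∫ x', Real.log (Zn β h (fun i y => ω i y x') N) ∂P with hE
  have t1 := hN3 E
  have t2 := H N hN1
  rw [pow_zero, one_mul, mul_comm] at hN2
  have t3 : C * Real.exp (-(N : ℝ) ^ s) ≤ |C| * Real.exp (-(N : ℝ) ^ s) :=
    mul_le_mul_of_nonneg_right (le_abs_self _) (Real.exp_pos _).le
  have t4 : (1 : ℝ) ≤ P.real {x | |Real.log (Zn β h (fun i y => ω i y x) N) - E| ≤ (N : ℝ) ^ c} +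
      P.real {x | (N : ℝ) ^ c < |Real.log (Zn β h (fun i y => ω i y x) N) - E|} := by
    have hu : (univ : Set Ω) ⊆ {x | |Real.log (Zn β h (fun i y => ω i y x) N) - E| ≤ (N : ℝ) ^ c} ∪
        {x | (N : ℝ) ^ c < |Real.log (Zn β h (fun i y => ω i y x) N) - E|} := by
      intro x _
      rcases le_or_gt |Real.log (Zn β h (fun i y => ω i y x) N) - E| ((N : ℝ) ^ c) with h5 | h5
      · exact Or.inl h5
      · exact Or.inr h5
    calc (1 : ℝ) = P.real univ := (probReal_univ (μ := P)).symm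
      _ ≤ P.real ({x | |Real.log (Zn β h (fun i y => ω i y x) N) - E| ≤ (N : ℝ) ^ c} ∪
        {x | (N : ℝ) ^ c < |Real.log (Zn β h (fun i y => ω i y x) N) - E|}) :=
          measureReal_mono hu (measure_ne_top _ _)
      _ ≤ _ := measureReal_union_le _ _
  linarith

end Pool.Agent.K1H54.KD
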