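import Pool.Agent.K1H53.KD.Plan2
import Pool.Agent.K1H53.KP.Glue

/-!
Two independent groups of sites.
-/

open MeasureTheory ProbabilityTheory Set Filter TH967.DP
open scoped Topology

set_option linter.unusedSectionVars false

namespace Pool.Agent.K1H54.KD

open Pool.Agent.K1H38.DP Pool.Agent.K1H53.KD
open Pool.Agent.K1H53.KP (glue measurable_glue glue_law)

variable {d : ℕ} {Ω : Type*} [MeasurableSpace Ω] {P : Measure Ω} [IsProbabilityMeasure P]
variable {ω : ℕ → (Fin d → ℤ) → Ω → ℝ}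

lemma law_envd (he : IsEnv P ω) : P.map (fun a (s : ℕ × (Fin d → ℤ)) => ω s.1 s.2 a) =
    Measure.infinitePi (fun _ : ℕ × (Fin d → ℤ) => P.map (ω 1 0)) := by
  have h3 := he.indep.map_fun_eq_infinitePi_map (fun s => he.meas _ _)
  refine h3.trans ?_
  congr 1
  ext1 s
  exact (he.ident s.1 s.2).map_eq

lemma measurable_cur : Measurable (fun (f : ℕ × (Fin d → ℤ) → ℝ) (i : ℕ) (x : Fin d → ℤ) => f (i, x)) := by
  rw [measurable_pi_iff]; intro i
  rw [measurable_pi_iff]; intro x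
  exact measurable_pi_apply _

open Classical in
/-- probabilities in the product space of three copies -/
lemma prob_glued (he : IsEnv P ω) (SA SB : Set (ℕ × (Fin d → ℤ))) {E : Set (ℕ → (Fin d → ℤ) → ℝ)}
    (hE : MeasurableSet E) :
    P {a | fld ω a ∈ E} = (((Measure.infinitePi (fun _ : ℕ × (Fin d → ℤ) => P.map (ω 1 0))).prod
      (Measure.infinitePi (fun _ : ℕ × (Fin d → ℤ) => P.map (ω 1 0)))).prod
        (Measure.infinitePi (fun _ : ℕ × (Fin d → ℤ) => P.map (ω 1 0))))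
      {p | (fun i x => glue SA SB p (i, x)) ∈ E} := by
  have hprob : IsProbabilityMeasure (P.map (ω 1 0)) :=
    Measure.isProbabilityMeasure_map (he.meas 1 0).aemeasurable
  have hE' : MeasurableSet ((fun (f : ℕ × (Fin d → ℤ) → ℝ) (i : ℕ) (x : Fin d → ℤ) => f (i, x)) ⁻¹' E) :=
    measurable_cur hE
  have mf : Measurable (fun a (s : ℕ × (Fin d → ℤ)) => ω s.1 s.2 a) := by
    rw [measurable_pi_iff]; intro s
    exact he.meas _ _
  have h1 : (P.map (fun a (s : ℕ × (Fin d → ℤ)) => ω s.1 s.2 a))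
      ((fun (f : ℕ × (Fin d → ℤ) → ℝ) (i : ℕ) (x : Fin d → ℤ) => f (i, x)) ⁻¹' E) = P {a | fld ω a ∈ E} := by
    rw [Measure.map_apply mf hE']
    rfl
  rw [← h1, law_envd he, ← glue_law SA SB (P.map (ω 1 0)),
    Measure.map_apply (measurable_glue SA SB) hE', glue_law SA SB (P.map (ω 1 0))]
  rfl

open Classical in
theorem t_two (he : IsEnv P ω) : S_two P ω := by
  intro SA Y M mY mM hY hM L δ h
  have hprob : IsProbabilityMeasure (P.map (ω 1 0)) :=
    Measure.isProbabilityMeasure_map (he.meas 1 0).aemeasurable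
  set π := Measure.infinitePi (fun _ : ℕ × (Fin d → ℤ) => P.map (ω 1 0)) with hπ
  set gg : ((ℕ × (Fin d → ℤ) → ℝ) × (ℕ × (Fin d → ℤ) → ℝ)) × (ℕ × (Fin d → ℤ) → ℝ) →
    ℕ → (Fin d → ℤ) → ℝ := fun p i x => glue SA univ p (i, x) with hgg
  have mgg : Measurable gg := measurable_cur.comp (measurable_glue SA univ)
  -- the bad event
  set E : Set (ℕ → (Fin d → ℤ) → ℝ) := {η | L < |Y η - M η|} with hE
  have mE : MeasurableSet E := measurableSet_lt measurable_const ((mY.sub mM).abs)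
  have e1 : P {x | L < |Y (fld ω x) - M (fld ω x)|} = ((π.prod π).prod π) (gg ⁻¹' E) :=
    prob_glued he SA univ mE
  -- the third copy is not used
  have g3 : ∀ a b c c' : ℕ × (Fin d → ℤ) → ℝ, gg ((a, b), c) = gg ((a, b), c') := by
    intro a b c c'
    funext i x
    simp only [hgg, glue, mem_univ, if_true]
  have prodE : ∀ {F : Set (ℕ → (Fin d → ℤ) → ℝ)}, MeasurableSet F →
      ((π.prod π).prod π) (gg ⁻¹' F) = (π.prod π) {p | gg (p, 0) ∈ F} := by
    intro F _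
    have e : gg ⁻¹' F = {p : (ℕ × (Fin d → ℤ) → ℝ) × (ℕ × (Fin d → ℤ) → ℝ) | gg (p, 0) ∈ F} ×ˢ univ := by
      ext ⟨⟨a, b⟩, c⟩
      simp only [mem_preimage, mem_prod, mem_ofPred_eq, mem_univ, and_true]
      rw [g3 a b c 0]
    rw [e, Measure.prod_prod, measure_univ, mul_one]
  have mg0 : Measurable fun p : (ℕ × (Fin d → ℤ) → ℝ) × (ℕ × (Fin d → ℤ) → ℝ) => gg (p, 0) :=
    mgg.comp (measurable_id.prodMk measurable_const)
  have mE2 : MeasurableSet {p : (ℕ × (Fin d → ℤ) → ℝ) × (ℕ × (Fin d → ℤ) → ℝ) | gg (p, 0) ∈ E} := mg0 mE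
  rw [prodE mE, Measure.prod_apply_symm mE2] at e1
  obtain ⟨b, hb⟩ := exists_le_lintegral (μ := π)
    (f := fun b => π ((fun a => (a, b)) ⁻¹' {p : (ℕ × (Fin d → ℤ) → ℝ) × (ℕ × (Fin d → ℤ) → ℝ) | gg (p, 0) ∈ E}))
    (measurable_measure_prodMk_right mE2).aemeasurable
  rw [← e1] at hb
  set m := M (gg ((0, b), 0)) with hm
  refine ⟨m, ?_⟩
  have hMm : ∀ a, M (gg ((a, b), 0)) = m := by
    intro a
    apply hM
    intro s hs
    simp only [hgg, glue]
    rw [if_neg hs, if_neg hs]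
  have hYY : ∀ a b b' : ℕ × (Fin d → ℤ) → ℝ, Y (gg ((a, b), 0)) = Y (gg ((a, b'), 0)) := by
    intro a b b'
    apply hY
    intro s hs
    simp only [hgg, glue]
    rw [if_pos hs, if_pos hs]
  set F : Set (ℕ → (Fin d → ℤ) → ℝ) := {η | L < |Y η - m|} with hF
  have mF : MeasurableSet F := measurableSet_lt measurable_const ((mY.sub_const m).abs)
  have e2 : P {x | L < |Y (fld ω x) - m|} = ((π.prod π).prod π) (gg ⁻¹' F) :=
    prob_glued he SA univ mF
  have e3 : {p : (ℕ × (Fin d → ℤ) → ℝ) × (ℕ × (Fin d → ℤ) → ℝ) | gg (p, 0) ∈ F} =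
      ((fun a => (a, b)) ⁻¹' {p : (ℕ × (Fin d → ℤ) → ℝ) × (ℕ × (Fin d → ℤ) → ℝ) | gg (p, 0) ∈ E}) ×ˢ univ := by
    ext ⟨a, b'⟩
    simp only [mem_ofPred_eq, mem_prod, mem_preimage, mem_univ, and_true, hF, hE]
    rw [hMm a, hYY a b' b]
  rw [prodE mF, e3, Measure.prod_prod, measure_univ, mul_one] at e2
  refine le_trans ?_ h
  rw [measureReal_def, measureReal_def, e2]
  exact ENNReal.toReal_mono (measure_ne_top _ _) hb

end Pool.Agent.K1H54.KD
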